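import Mathlib
import Pool.Agent.X78.ProdSchur

/-!
# MP_63285e_co: the threshold for `[n]_p` to be product-Schur is not `n ^ (-1/11)`

`prob n p Q` is the probability that the binomial random subset `[n]_p` has the property `Q`.
We show that for every `θ < 1/10`, if `p ≥ n ^ (-θ)` (for large `n`) then a.a.s. every
2-colouring of `[n]_p` has a monochromatic `a, b, a * b` with `a ≠ b`. As `1/11 < 1/10`, the
function `n ^ (-1/11)` is not a threshold for being product-Schur.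
-/

namespace Pool.Agent.Results.MP_63285e_co.NotThreshold

open Finset Filter Topology Asymptotics

/-- `A` is product-Schur: every colouring with two colours has `a, b, c ∈ A` of the same colour
with `a * b = c` (the case `a = b` is allowed). -/
def ProductSchur (A : Set ℕ) : Prop :=
  ∀ χ : ℕ → Bool, ∃ a ∈ A, ∃ b ∈ A, ∃ c ∈ A, a * b = c ∧ χ a = χ b ∧ χ b = χ c

/-- The same with `a ≠ b`. -/
def StrictProductSchur (A : Set ℕ) : Prop :=
  ∀ χ : ℕ → Bool, ∃ a ∈ A, ∃ b ∈ A, ∃ c ∈ A, a ≠ b ∧ a * b = c ∧ χ a = χ b ∧ χ b = χ c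

open Classical in
/-- The probability that `[n]_p`, which contains each integer of `[n] = {1, ..., n}`
independently with probability `p`, has the property `Q`. -/
noncomputable def prob (n : ℕ) (p : ℝ) (Q : Set ℕ → Prop) : ℝ :=
  ∑ A ∈ (Finset.Icc 1 n).powerset with Q ((A : Finset ℕ) : Set ℕ),
    p ^ (Finset.card A) * (1 - p) ^ (n - Finset.card A)

/-- `q` is a threshold for the property `Q` of `[n]_p`. -/
def IsThreshold (q : ℕ → ℝ) (Q : Set ℕ → Prop) : Prop :=
  (∀ p : ℕ → ℝ, (∀ n, 0 ≤ p n ∧ p n ≤ 1) → q =o[atTop] p →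
      Tendsto (fun n => prob n (p n) Q) atTop (𝓝 1)) ∧
  (∀ p : ℕ → ℝ, (∀ n, 0 ≤ p n ∧ p n ≤ 1) → p =o[atTop] q →
      Tendsto (fun n => prob n (p n) Q) atTop (𝓝 0))

theorem prob_eq (n : ℕ) (p : ℝ) (Q : Set ℕ → Prop) :
    prob n p Q = X78.RandSet.pr p (Finset.Icc 1 n) (fun A => Q (A : Set ℕ)) := by
  classical
  unfold prob X78.RandSet.pr X78.RandSet.wt
  apply Finset.sum_congr
  · ext A; simp
  · intro A _
    rw [Nat.card_Icc]
    simp

theorem aas {θ : ℝ} (hθ : θ < 1 / 10) (p : ℕ → ℝ) (hp : ∀ n, 0 ≤ p n ∧ p n ≤ 1)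
    (hlow : ∀ᶠ n : ℕ in atTop, (n : ℝ) ^ (-θ) ≤ p n) :
    Tendsto (fun n => prob n (p n) StrictProductSchur) atTop (𝓝 1) := by
  -- replace `θ` by a positive number
  set θ' := max θ (1 / 20) with hθ'
  have h1 : θ' < 1 / 10 := max_lt hθ (by norm_num)
  have h2 : 0 < θ' := lt_of_lt_of_le (by norm_num) (le_max_right _ _)
  have hlow' : ∀ᶠ n : ℕ in atTop, (n : ℝ) ^ (-θ') ≤ p n := by
    filter_upwards [hlow, eventually_ge_atTop 1] with n hn hn1
    refine le_trans ?_ hn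
    apply Real.rpow_le_rpow_of_exponent_le (by exact_mod_cast hn1)
    linarith [le_max_left θ (1 / 20)]
  set α : Fin 5 → ℕ := ![1, 3, 4, 5, 5] with hα
  have hαpos : ∀ i, 1 ≤ α i := by decide
  have key := X78.ProdSchur.tendsto_one X78.ProdSchur.S18 X78.ProdSchur.S18_col
    (fun i => (α i : ℝ) / 10)
    (fun i => by
      have : (1 : ℝ) ≤ α i := by exact_mod_cast hαpos i
      positivity) h2
    (by
      intro V hV
      have hsz : (#(X78.ProdSchur.sub X78.ProdSchur.S18 V) : ℝ) ≤ ∑ i ∈ V, (α i : ℝ) := by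
        exact_mod_cast X78.ProdSchur.S18_size V
      have hpos : (0 : ℝ) < ∑ i ∈ V, (α i : ℝ) :=
        Finset.sum_pos (fun i _ => by
          have : (1 : ℝ) ≤ α i := by exact_mod_cast hαpos i
          linarith) hV
      rw [← Finset.sum_div]
      have hs0 : (0 : ℝ) ≤ (#(X78.ProdSchur.sub X78.ProdSchur.S18 V) : ℝ) := Nat.cast_nonneg _
      rcases hs0.eq_or_lt with h | h
      · rw [← h]; simpa using by positivity
      · calc (#(X78.ProdSchur.sub X78.ProdSchur.S18 V) : ℝ) * θ'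
            < (#(X78.ProdSchur.sub X78.ProdSchur.S18 V) : ℝ) * (1 / 10) :=
              mul_lt_mul_of_pos_left h1 h
          _ ≤ (∑ i ∈ V, (α i : ℝ)) * (1 / 10) := by
              apply mul_le_mul_of_nonneg_right hsz (by norm_num)
          _ = _ := by ring)
    (by decide)
    (by
      intro m hm
      have h := X78.ProdSchur.S18_max m hm
      have h' : (∑ i, (m i : ℝ) * (α i : ℝ)) ≤ 10 := by exact_mod_cast h
      calc ∑ i, (m i : ℝ) * ((α i : ℝ) / 10) = (∑ i, (m i : ℝ) * (α i : ℝ)) / 10 := by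
            rw [Finset.sum_div]
            apply Finset.sum_congr rfl
            intro i _
            ring
        _ ≤ 1 := by linarith)
    p hp hlow'
  have hEq : ∀ A : Set ℕ, X78.ProdSchur.StrictProductSchur A ↔ StrictProductSchur A := by
    intro A
    constructor
    · intro h χ
      obtain ⟨a, ha, b, hb, hab, hc, h1, h2⟩ := h χ
      exact ⟨a, ha, b, hb, a * b, hc, hab, rfl, h1, h2⟩
    · intro h χ
      obtain ⟨a, ha, b, hb, c, hc, hab, rfl, h1, h2⟩ := h χ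
      exact ⟨a, ha, b, hb, hab, hc, h1, h2⟩
  refine key.congr (fun n => ?_)
  rw [prob_eq]
  congr 1
  funext A
  exact propext (hEq _)

theorem prob_le_one (n : ℕ) {p : ℝ} (hp : 0 ≤ p ∧ p ≤ 1) (Q : Set ℕ → Prop) :
    prob n p Q ≤ 1 := by
  rw [prob_eq]
  exact X78.RandSet.pr_le_one hp.1 hp.2 _ _

theorem prob_mono (n : ℕ) {p : ℝ} (hp : 0 ≤ p ∧ p ≤ 1) {Q R : Set ℕ → Prop}
    (h : ∀ A, Q A → R A) : prob n p Q ≤ prob n p R := by
  rw [prob_eq, prob_eq]
  exact X78.RandSet.pr_mono hp.1 hp.2 _ (fun A _ hA => h _ hA)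

theorem strict_imp (A : Set ℕ) (h : StrictProductSchur A) : ProductSchur A := by
  intro χ
  obtain ⟨a, ha, b, hb, c, hc, hab, h1, h2, h3⟩ := h χ
  exact ⟨a, ha, b, hb, c, hc, h1, h2, h3⟩

theorem exists_small : ∃ p : ℕ → ℝ, (∀ n, 0 ≤ p n ∧ p n ≤ 1) ∧
    p =o[atTop] (fun n : ℕ => (n : ℝ) ^ (-(1 / 11 : ℝ))) ∧
    Tendsto (fun n => prob n (p n) ProductSchur) atTop (𝓝 1) := by
  have hp : ∀ n : ℕ, 0 ≤ (n : ℝ) ^ (-(2 / 21 : ℝ)) ∧ (n : ℝ) ^ (-(2 / 21 : ℝ)) ≤ 1 := by
    intro n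
    refine ⟨Real.rpow_nonneg (Nat.cast_nonneg n) _, ?_⟩
    rcases Nat.eq_zero_or_pos n with h | h
    · rw [h, Nat.cast_zero, Real.zero_rpow (by norm_num)]; exact zero_le_one
    · exact Real.rpow_le_one_of_one_le_of_nonpos (by exact_mod_cast h) (by norm_num)
  refine ⟨fun n => (n : ℝ) ^ (-(2 / 21 : ℝ)), hp, ?_, ?_⟩
  · apply Asymptotics.isLittleO_of_tendsto'
    · filter_upwards [eventually_ge_atTop 1] with n hn h0
      have hn0 : (0 : ℝ) < n := by exact_mod_cast hn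
      exact absurd h0 (Real.rpow_pos_of_pos hn0 _).ne'
    · have h1 : Tendsto (fun n : ℕ => (n : ℝ) ^ (-(1 / 231 : ℝ))) atTop (𝓝 0) :=
        (tendsto_rpow_neg_atTop (by norm_num)).comp tendsto_natCast_atTop_atTop
      refine h1.congr' ?_
      filter_upwards [eventually_ge_atTop 1] with n hn
      have hn0 : (0 : ℝ) < n := by exact_mod_cast hn
      rw [← Real.rpow_sub hn0]
      norm_num
  · have h := aas (θ := 2 / 21) (by norm_num) (fun n => (n : ℝ) ^ (-(2 / 21 : ℝ))) hp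
      (Filter.Eventually.of_forall (fun n => le_rfl))
    exact tendsto_of_tendsto_of_tendsto_of_le_of_le h tendsto_const_nhds
      (fun n => prob_mono n (hp n) strict_imp) (fun n => prob_le_one n (hp n) _)

/-- For every `θ < 1/10` and every `p` with `p n ≥ n ^ (-θ)` for large `n`, a.a.s. every
2-colouring of `[n]_p` has a monochromatic `a, b, a * b` with `a ≠ b`. In particular some
`p = o(n ^ (-1/11))` has `Pr([n]_p is product-Schur) → 1`, and `n ^ (-1/11)` is not a threshold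
for `[n]_p` to be product-Schur. -/
theorem result :
    (∀ θ : ℝ, θ < 1 / 10 → ∀ p : ℕ → ℝ, (∀ n, 0 ≤ p n ∧ p n ≤ 1) →
      (∀ᶠ n : ℕ in atTop, (n : ℝ) ^ (-θ) ≤ p n) →
      Tendsto (fun n => prob n (p n) StrictProductSchur) atTop (𝓝 1)) ∧
    (∃ p : ℕ → ℝ, (∀ n, 0 ≤ p n ∧ p n ≤ 1) ∧
      p =o[atTop] (fun n : ℕ => (n : ℝ) ^ (-(1 / 11 : ℝ))) ∧
      Tendsto (fun n => prob n (p n) ProductSchur) atTop (𝓝 1)) ∧
    ¬ IsThreshold (fun n : ℕ => (n : ℝ) ^ (-(1 / 11 : ℝ))) ProductSchur := by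
  refine ⟨fun θ hθ p hp hlow => aas hθ p hp hlow, exists_small, ?_⟩
  rintro ⟨-, h⟩
  obtain ⟨p, hp, hpo, hlim⟩ := exists_small
  exact one_ne_zero (tendsto_nhds_unique hlim (h p hp hpo))

end Pool.Agent.Results.MP_63285e_co.NotThreshold
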